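import Pool.Agent.Q66.SH.Stm

set_option autoImplicit false

open Filter Topology
open scoped ENNReal

namespace Pool.Agent.Q109.SH

open Pool.Agent.Q66.SH

theorem t_BP : S_BP := by
  classical
  intro H _ _ _ C D E m n t hC ⟨V, hVfd, hVdim, hV⟩
  rw [← tsub_le_iff_left]
  refine le_iInf₂ (fun F hF => ?_)
  rw [tsub_le_iff_left]
  obtain ⟨W, hWfd, hWdim, hFW⟩ := hF
  set φ : V →ₗ[ℂ] W := ((F : H →ₗ[ℂ] H).domRestrict V).codRestrict W (fun x => hFW x) with hφ
  have h1 := φ.finrank_range_add_finrank_ker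
  have h2 : Module.finrank ℂ (LinearMap.range φ) ≤ n := (Submodule.finrank_le _).trans hWdim
  have h3 : m + 1 ≤ Module.finrank ℂ (LinearMap.ker φ) := by omega
  obtain ⟨f, hf⟩ := exists_linearIndependent_of_le_finrank h3
  set g : Fin (m + 1) → H := fun i => ((f i : V) : H) with hg
  have hgl : LinearIndependent ℂ g := by
    have h4 : LinearIndependent ℂ (fun i => ((f i : V))) :=
      hf.map' (LinearMap.ker φ).subtype (Submodule.ker_subtype _)
    exact h4.map' V.subtype (Submodule.ker_subtype _)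
  have hmem : ∀ x ∈ Submodule.span ℂ (Set.range g), x ∈ V ∧ F x = 0 := by
    have hle : Submodule.span ℂ (Set.range g) ≤ V ⊓ LinearMap.ker (F : H →ₗ[ℂ] H) := by
      rw [Submodule.span_le]
      rintro _ ⟨i, rfl⟩
      refine ⟨(f i : V).2, ?_⟩
      have h5 : φ (f i : V) = 0 := (f i).2
      have h6 : (φ (f i : V) : H) = 0 := by rw [h5]; rfl
      exact h6
    intro x hx
    exact ⟨(hle hx).1, (hle hx).2⟩
  have hB : Bern D m (t - ‖E - F‖) := by
    refine ⟨Submodule.span ℂ (Set.range g), FiniteDimensional.span_of_finite ℂ (Set.finite_range g),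
      ?_, ?_⟩
    · rw [finrank_span_eq_card hgl, Fintype.card_fin]
    · intro x hx
      obtain ⟨hxV, hxF⟩ := hmem x hx
      have h5 := hV x hxV
      have h6 : C x = D x + (E - F) x := by
        rw [hC]
        change D x + E x = D x + (E x - F x)
        rw [hxF, sub_zero]
      have h7 := norm_add_le (D x) ((E - F) x)
      have h8 := (E - F).le_opNorm x
      rw [← h6] at h7
      rw [sub_mul]
      linarith
  have h9 : ENNReal.ofReal (t - ‖E - F‖) ≤ brn m D :=
    le_iSup₂ (f := fun (t : ℝ) (_ : Bern D m t) => ENNReal.ofReal t) (t - ‖E - F‖) hB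
  calc ENNReal.ofReal t = ENNReal.ofReal ((t - ‖E - F‖) + ‖E - F‖) := by rw [sub_add_cancel]
    _ ≤ ENNReal.ofReal (t - ‖E - F‖) + ENNReal.ofReal ‖E - F‖ := ENNReal.ofReal_add_le
    _ ≤ brn m D + ‖E - F‖ₑ := by
        rw [ofReal_norm]
        exact add_le_add h9 le_rfl

end Pool.Agent.Q109.SH
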