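import Pool.Agent.Q66.SH.Stm

set_option autoImplicit false

open Filter Topology
open scoped ENNReal

namespace Pool.Agent.Q109.SH

open Pool.Agent.Q66.SH

section
variable {H : Type} [NormedAddCommGroup H] [InnerProductSpace ℂ H] [CompleteSpace H]

theorem finl_sum {M : (H →L[ℂ] H) → ℝ≥0∞} {K : ℝ≥0∞} {R : ℕ → ℝ≥0∞} (hM : QN H M K R)
    (E : ℕ → (H →L[ℂ] H)) (m : ℕ) :
    M (∑ j ∈ Finset.range m, E j) ≤ K ^ m * ∑ j ∈ Finset.range m, M (E j) := by
  induction m with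
  | zero =>
    have h0 : RankLE (0 : H →L[ℂ] H) 0 := by
      refine ⟨⊥, inferInstance, ?_, fun x => ?_⟩
      · rw [finrank_bot]
      · rw [ContinuousLinearMap.zero_apply]
        exact Submodule.zero_mem _
    have h1 := hM.fin 0 0 h0
    rw [enorm_zero, mul_zero] at h1
    rw [Finset.range_zero, Finset.sum_empty]
    exact h1.trans zero_le
  | succ m ih =>
    rw [Finset.sum_range_succ, Finset.sum_range_succ]
    have h1 : 1 ≤ K ^ m := one_le_pow₀ hM.one_le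
    calc M (∑ j ∈ Finset.range m, E j + E m)
        ≤ K * (M (∑ j ∈ Finset.range m, E j) + M (E m)) := hM.add _ _
      _ ≤ K * (K ^ m * ∑ j ∈ Finset.range m, M (E j) + K ^ m * M (E m)) := by
          gcongr
          calc M (E m) = 1 * M (E m) := (one_mul _).symm
            _ ≤ K ^ m * M (E m) := by gcongr
      _ = K ^ (m + 1) * (∑ j ∈ Finset.range m, M (E j) + M (E m)) := by
          rw [pow_succ]
          ring

theorem finl_neg {M : (H →L[ℂ] H) → ℝ≥0∞} {K : ℝ≥0∞} {R : ℕ → ℝ≥0∞} (hM : QN H M K R)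
    (T : H →L[ℂ] H) : M (-T) ≤ M T := by
  have h1 := hM.ideal (-1) T 1
    (by rw [norm_neg]; exact ContinuousLinearMap.norm_id_le)
    ContinuousLinearMap.norm_id_le
  rwa [mul_one, neg_one_mul] at h1

theorem finl_orth (hP : S_PB) (b : HilbertBasis ℕ ℂ H) (k : ℕ → ℕ) (hk : Monotone k) :
    OrthProj (fun j => P b (k (j + 1)) - P b (k j)) := by
  obtain ⟨h1, h2, -⟩ := hP H b
  refine ⟨fun i => ?_, fun i j hij => ?_, fun i => ?_⟩
  · have hle := hk (Nat.le_succ i)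
    simp only [mul_sub, sub_mul]
    rw [(h1 _ _ le_rfl).1, (h1 _ _ hle).1, (h1 _ _ hle).2, (h1 _ _ le_rfl).1]
    abel
  · simp only [mul_sub, sub_mul]
    rcases lt_or_gt_of_ne hij with h | h
    · have hle : k (i + 1) ≤ k j := hk h
      have ha : k i ≤ k (i + 1) := hk (Nat.le_succ i)
      have hb : k j ≤ k (j + 1) := hk (Nat.le_succ j)
      rw [(h1 _ _ (hle.trans hb)).1, (h1 _ _ (ha.trans (hle.trans hb))).1, (h1 _ _ hle).1,
        (h1 _ _ (ha.trans hle)).1]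
      abel
    · have hle : k (j + 1) ≤ k i := hk h
      have ha : k j ≤ k (j + 1) := hk (Nat.le_succ j)
      have hb : k i ≤ k (i + 1) := hk (Nat.le_succ i)
      rw [(h1 _ _ (hle.trans hb)).2, (h1 _ _ hle).2, (h1 _ _ (ha.trans (hle.trans hb))).2,
        (h1 _ _ (ha.trans hle)).2]
      abel
  · simp only [map_sub]
    rw [h2, h2]

end

theorem finl_real (α β c K : ℝ) (hαβ : β < α) (hc : 0 < c) (hK : 0 < K) :
    ∃ n : ℕ, 1 ≤ n ∧ 2 * K * (n : ℝ) ^ β < c * (n : ℝ) ^ α := by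
  have h1 : Tendsto (fun n : ℕ => (n : ℝ) ^ (α - β)) atTop atTop :=
    (tendsto_rpow_atTop (by linarith)).comp tendsto_natCast_atTop_atTop
  obtain ⟨n, hn, hn1⟩ := ((h1.eventually (eventually_gt_atTop (2 * K / c))).and
    (eventually_ge_atTop 1)).exists
  refine ⟨n, hn1, ?_⟩
  have hn0 : (0 : ℝ) < n := by exact_mod_cast hn1
  rw [div_lt_iff₀ hc] at hn
  have h2 : (n : ℝ) ^ α = (n : ℝ) ^ (α - β) * (n : ℝ) ^ β := by
    rw [← Real.rpow_add hn0]
    congr 1
    ring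
  rw [h2]
  have h3 : 0 < (n : ℝ) ^ β := Real.rpow_pos_of_pos hn0 β
  nlinarith

theorem t_FINL (hQ : S_QN) (hL : S_LOW) (hP : S_PB) (hN : S_NIN) : S_FINL := by
  intro H _ _ _ b q p hq hp hpq hG
  obtain ⟨K, R, hM⟩ := hQ H p hp
  have hpt : p ≠ ∞ := (lt_of_lt_of_le hpq le_top).ne
  obtain ⟨c, η₀, hc, hη₀, hlow⟩ := hL H p hp hpt
  set α := (p⁻¹).toReal with hα
  set β := (q⁻¹).toReal with hβ
  have hαβ : β < α := by
    rw [hα, hβ]
    refine (ENNReal.toReal_lt_toReal (ENNReal.inv_ne_top.2 hq) (ENNReal.inv_ne_top.2 hp)).2 ?_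
    exact ENNReal.inv_lt_inv.2 hpq
  have hβ0 : 0 ≤ β := ENNReal.toReal_nonneg
  have hα0 : 0 ≤ α := ENNReal.toReal_nonneg
  set c' := (min c 1).toReal with hc'
  have hmin : min c 1 ≠ ∞ := (lt_of_le_of_lt (min_le_right c 1) ENNReal.one_lt_top).ne
  have hmin0 : min c 1 ≠ 0 := by
    rcases min_choice c 1 with h | h <;> rw [h]
    · exact hc
    · exact one_ne_zero
  have hc0 : 0 < c' := ENNReal.toReal_pos hmin0 hmin
  have hcc : ENNReal.ofReal c' ≤ c := by
    rw [hc', ENNReal.ofReal_toReal hmin]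
    exact min_le_left _ _
  set K' := K.toReal with hK'
  have hKK : ENNReal.ofReal K' = K := ENNReal.ofReal_toReal hM.K_ne
  have hK0 : 0 < K' := ENNReal.toReal_pos (lt_of_lt_of_le zero_lt_one hM.one_le).ne' hM.K_ne
  obtain ⟨n, hn1, hn⟩ := finl_real α β c' K' hαβ hc0 hK0
  have hn0 : (0 : ℝ) < n := by exact_mod_cast hn1
  have hKn : K ^ n * (n : ℝ≥0∞) ≠ ∞ :=
    ENNReal.mul_ne_top (ENNReal.pow_ne_top hM.K_ne) (ENNReal.natCast_ne_top n)
  have hKn0 : K ^ n * (n : ℝ≥0∞) ≠ 0 := by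
    refine mul_ne_zero (pow_ne_zero _ (lt_of_lt_of_le zero_lt_one hM.one_le).ne') ?_
    exact Nat.cast_ne_zero.2 (by omega)
  set η := min η₀ ((K ^ n * (n : ℝ≥0∞))⁻¹) with hη
  have hη0 : η ≠ 0 := by
    rcases min_choice η₀ ((K ^ n * (n : ℝ≥0∞))⁻¹) with h | h <;> rw [hη, h]
    · exact hη₀
    · exact ENNReal.inv_ne_zero.2 hKn
  obtain ⟨C, k, hk, hC1, hCs, hCE⟩ := hG n hn1 η hη0
  set Q : ℕ → (H →L[ℂ] H) := fun j => P b (k (j + 1)) - P b (k j) with hQdef
  have hQo : OrthProj Q := finl_orth hP b k hk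
  set D : ℕ → (H →L[ℂ] H) := fun j => Q j * C j * Q j with hD
  set E : ℕ → (H →L[ℂ] H) := fun j => C j - D j with hE
  have h1 := hlow Q hQo C D E n
    (fun j _ => by
      change Q j * C j * Q j = Q j * (Q j * C j * Q j) * Q j
      have h := hQo.1 j
      calc Q j * C j * Q j = (Q j * Q j) * C j * (Q j * Q j) := by rw [h]
        _ = Q j * (Q j * C j * Q j) * Q j := by simp only [mul_assoc])
    (fun j _ => by
      change C j = D j + (C j - D j)
      abel)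
    hC1 (fun j hj => (hCE j hj).trans (min_le_left _ _))
  have h2 : N p (∑ j ∈ Finset.range n, E j) ≤ 1 := by
    refine (finl_sum hM E n).trans ?_
    calc K ^ n * ∑ j ∈ Finset.range n, N p (E j)
        ≤ K ^ n * ∑ j ∈ Finset.range n, (K ^ n * (n : ℝ≥0∞))⁻¹ := by
          gcongr with j hj
          exact (hCE j (Finset.mem_range.1 hj)).trans (min_le_right _ _)
      _ = (K ^ n * (n : ℝ≥0∞)) * (K ^ n * (n : ℝ≥0∞))⁻¹ := by
          rw [Finset.sum_const, Finset.card_range, nsmul_eq_mul, mul_assoc]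
      _ = 1 := ENNReal.mul_inv_cancel hKn0 hKn
  have h3 : ∑ j ∈ Finset.range n, D j = ∑ j ∈ Finset.range n, C j + -(∑ j ∈ Finset.range n, E j) := by
    rw [hE, Finset.sum_sub_distrib]
    abel
  have h4 : N p (∑ j ∈ Finset.range n, C j) = ENNReal.ofReal ((n : ℝ) ^ β) :=
    ((hN H p hp _).2 _ hCs).1
  have h5 : N p (∑ j ∈ Finset.range n, D j) ≤ K * (ENNReal.ofReal ((n : ℝ) ^ β) + 1) := by
    rw [h3]
    refine (hM.add _ _).trans ?_
    rw [h4]
    gcongr
    exact (finl_neg hM _).trans h2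
  have hnβ : (1 : ℝ) ≤ (n : ℝ) ^ β := Real.one_le_rpow (by exact_mod_cast hn1) hβ0
  have h6 : K * (ENNReal.ofReal ((n : ℝ) ^ β) + 1) ≤ ENNReal.ofReal (2 * K' * (n : ℝ) ^ β) := by
    have h7 : (1 : ℝ≥0∞) ≤ ENNReal.ofReal ((n : ℝ) ^ β) := by
      rw [← ENNReal.ofReal_one]
      exact ENNReal.ofReal_le_ofReal hnβ
    calc K * (ENNReal.ofReal ((n : ℝ) ^ β) + 1)
        ≤ K * (ENNReal.ofReal ((n : ℝ) ^ β) + ENNReal.ofReal ((n : ℝ) ^ β)) := by gcongr
      _ = ENNReal.ofReal (2 * K' * (n : ℝ) ^ β) := by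
          rw [← ENNReal.ofReal_add (by positivity) (by positivity), ← hKK,
            ← ENNReal.ofReal_mul hK0.le]
          congr 1
          ring
  have h8 : ENNReal.ofReal (c' * (n : ℝ) ^ α) ≤ c * (n : ℝ≥0∞) ^ α := by
    rw [ENNReal.ofReal_mul hc0.le, ← ENNReal.ofReal_rpow_of_pos hn0, ENNReal.ofReal_natCast]
    gcongr
  have h9 := h8.trans (h1.trans (h5.trans h6))
  have h10 := (ENNReal.ofReal_le_ofReal_iff (by positivity)).1 h9
  linarith

end Pool.Agent.Q109.SH
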