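import Pool.Agent.Q66.SH.Stm

set_option autoImplicit false

open Filter Topology
open scoped ENNReal

namespace Pool.Agent.Q109.SH

open Pool.Agent.Q66.SH

section
variable {H : Type} [NormedAddCommGroup H] [InnerProductSpace ℂ H]

theorem svu_norm (f : ℕ → H) (hf : Orthonormal ℂ f) (l : ℕ → ℂ) (A : Finset ℕ) :
    ‖∑ i ∈ A, l i • f i‖ ^ 2 = ∑ i ∈ A, ‖l i‖ ^ 2 := by
  have h1 := hf.inner_sum l l A
  have h2 : ((‖∑ i ∈ A, l i • f i‖ ^ 2 : ℝ) : ℂ) = ((∑ i ∈ A, ‖l i‖ ^ 2 : ℝ) : ℂ) := by
    rw [inner_self_eq_norm_sq_to_K] at h1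
    push_cast
    refine h1.trans ?_
    refine Finset.sum_congr rfl fun i _ => ?_
    rw [RCLike.conj_mul]
    rfl
  exact_mod_cast h2

end

theorem t_SVU : S_SVU := by
  classical
  intro H _ _ _ T s n ⟨hanti, hpos, hlim, e, f, he, hf, hT⟩
  set F : H →L[ℂ] H := ∑ j ∈ Finset.range n, (s j : ℂ) • rk1 (e j) (f j) with hF
  have hFx : ∀ x, F x = ∑ j ∈ Finset.range n, ((s j : ℂ) * inner ℂ (e j) x) • f j := by
    intro x
    rw [hF, ContinuousLinearMap.sum_apply]
    refine Finset.sum_congr rfl fun j _ => ?_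
    rw [ContinuousLinearMap.smul_apply, rk1, ContinuousLinearMap.smulRight_apply, smul_smul]
    rfl
  have hrank : RankLE F n := by
    refine ⟨Submodule.span ℂ (((Finset.range n).image f : Finset H) : Set H),
      FiniteDimensional.span_finset ℂ _, ?_, ?_⟩
    · refine (finrank_span_finset_le_card _).trans ?_
      exact Finset.card_image_le.trans (Finset.card_range n).le
    · intro x
      rw [hFx]
      refine Submodule.sum_mem _ fun j hj => Submodule.smul_mem _ _ (Submodule.subset_span ?_)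
      exact Finset.mem_coe.2 (Finset.mem_image_of_mem f hj)
  have hbd : ∀ x, ‖(T - F) x‖ ≤ s n * ‖x‖ := by
    intro x
    have h1 : HasSum (fun j => ((s (j + n) : ℂ) * inner ℂ (e (j + n)) x) • f (j + n))
        ((T - F) x) := by
      have h2 := (hasSum_nat_add_iff' n).2 (hT x)
      rw [ContinuousLinearMap.sub_apply, hFx]
      exact h2
    refine le_of_tendsto h1.tendsto_sum_nat.norm (Eventually.of_forall fun k => ?_)
    have hf' : Orthonormal ℂ (fun j => f (j + n)) := hf.comp _ (add_left_injective n)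
    have he' : Orthonormal ℂ (fun j => e (j + n)) := he.comp _ (add_left_injective n)
    have h3 := svu_norm (fun j => f (j + n)) hf'
      (fun j => (s (j + n) : ℂ) * inner ℂ (e (j + n)) x) (Finset.range k)
    have h4 := he'.sum_inner_products_le (x := x) (s := Finset.range k)
    refine abs_le_of_sq_le_sq' ?_ (mul_nonneg (hpos n) (norm_nonneg x)) |>.2
    rw [h3, mul_pow]
    calc ∑ i ∈ Finset.range k, ‖(s (i + n) : ℂ) * inner ℂ (e (i + n)) x‖ ^ 2
        ≤ ∑ i ∈ Finset.range k, s n ^ 2 * ‖inner ℂ (e (i + n)) x‖ ^ 2 := by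
          refine Finset.sum_le_sum fun i _ => ?_
          rw [norm_mul, mul_pow]
          apply mul_le_mul_of_nonneg_right _ (sq_nonneg _)
          rw [Complex.norm_real, Real.norm_of_nonneg (hpos _)]
          exact pow_le_pow_left₀ (hpos _) (hanti (Nat.le_add_left n i)) 2
      _ = s n ^ 2 * ∑ i ∈ Finset.range k, ‖inner ℂ (e (i + n)) x‖ ^ 2 := by
          rw [Finset.mul_sum]
      _ ≤ s n ^ 2 * ‖x‖ ^ 2 := mul_le_mul_of_nonneg_left h4 (sq_nonneg _)
  have hop : ‖T - F‖ ≤ s n := ContinuousLinearMap.opNorm_le_bound _ (hpos n) hbd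
  refine (iInf₂_le F hrank).trans ?_
  rw [← ofReal_norm]
  exact ENNReal.ofReal_le_ofReal hop

end Pool.Agent.Q109.SH
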